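import Pool.Agent.Mg.F954c34a.G6d8a92

open MeasureTheory Set Pool.Agent.MP_954c34_an

theorem Pool.Agent.Results.MP_954c34_an.SharpModulus.result
    {E : Type} [NormedAddCommGroup E] [InnerProductSpace ℝ E] [FiniteDimensional ℝ E]
    [MeasurableSpace E] [BorelSpace E] (μ : Measure E) [μ.IsAddHaarMeasure]
    {n : ℕ} (hn : 1 ≤ n) (b : OrthonormalBasis (Fin n) ℝ E)
    (Ω D : Set E) (hΩ : IsOpen Ω) (hne : Ω.Nonempty) (hD : D ⊆ frontier Ω) (T : ℝ) (hT : 0 < T)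
    {V : Type} [NormedAddCommGroup V] [InnerProductSpace ℂ V]
    (val : V →L[ℂ] Lp ℂ 2 (μ.restrict Ω)) (grad : Fin n → V →L[ℂ] Lp ℂ 2 (μ.restrict Ω))
    (hV : IsFormDomain μ b Ω D val grad) (θ : ℝ → ℝ) (hθ : IsModulus θ) (δ : ℝ) (hδ : 0 < δ) :
    List.TFAE
      [IntegrableOn (fun t => θ t ^ 2 / t ^ 2) (Ioo 0 1),
        ∀ (V' H' : Type) [NormedAddCommGroup V'] [InnerProductSpace ℂ V'] [CompleteSpace V']
          [NormedAddCommGroup H'] [InnerProductSpace ℂ H'] [CompleteSpace H']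
          (val' : V' →L[ℂ] H') (𝔄 : ℝ → V' →L[ℂ] V' →L⋆[ℂ] ℂ),
          IsQuasiCoercive val' T 𝔄 → HasModulus T θ 𝔄 → HasMaxReg val' T 𝔄,
        ∀ (A : ℝ → E → Matrix (Fin n) (Fin n) ℂ) (𝔄 : ℝ → V →L[ℂ] V →L⋆[ℂ] ℂ),
          IsDivForm μ Ω grad T A 𝔄 → HasModulus T θ 𝔄 → HasMaxReg val T 𝔄,
        ∀ (a : ℝ → E → ℝ) (𝔄 : ℝ → V →L[ℂ] V →L⋆[ℂ] ℂ), IsMild θ δ a →
          IsDivForm μ Ω grad T (fun t x => (a t x : ℂ) • (1 : Matrix (Fin n) (Fin n) ℂ)) 𝔄 →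
          HasModulus T θ 𝔄 → HasMaxReg val T 𝔄] :=
  Sharp.top μ hn b Ω D hΩ hne hD T hT val grad hV θ hθ δ hδ
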