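import Pool.Agent.Mg.F954c34a.G0197c9

open MeasureTheory Set Pool.Agent.MP_954c34_an
open scoped BoundedContinuousFunction

theorem Pool.Agent.Results.MP_954c34_an.SobolevEndpoint.result
    {E : Type} [NormedAddCommGroup E] [InnerProductSpace ℝ E] [FiniteDimensional ℝ E]
    [MeasurableSpace E] [BorelSpace E] (μ : Measure E) [μ.IsAddHaarMeasure]
    {n : ℕ} (hn : 1 ≤ n) (b : OrthonormalBasis (Fin n) ℝ E)
    (Ω D : Set E) (hΩ : IsOpen Ω) (hne : Ω.Nonempty) (hD : D ⊆ frontier Ω) (T : ℝ) (hT : 0 < T)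
    {V : Type} [NormedAddCommGroup V] [InnerProductSpace ℂ V]
    (val : V →L[ℂ] Lp ℂ 2 (μ.restrict Ω)) (grad : Fin n → V →L[ℂ] Lp ℂ 2 (μ.restrict Ω))
    (hV : IsFormDomain μ b Ω D val grad) (δ : ℝ) (hδ : 0 < δ) :
    ∃ (a : ℝ → E →ᵇ ℝ) (𝔄 : ℝ → V →L[ℂ] V →L⋆[ℂ] ℂ), (∀ t x, |a t x - 1| ≤ δ) ∧
      IsDivForm μ Ω grad T (fun t x => (a t x : ℂ) • (1 : Matrix (Fin n) (Fin n) ℂ)) 𝔄 ∧
      Continuous a ∧ Continuous 𝔄 ∧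
      (∀ q, 1 < q → FiniteSeminorm T q a ∧ FiniteSeminorm T q 𝔄) ∧ ¬HasMaxReg val T 𝔄 :=
  Sob.top μ hn b Ω D hΩ hne hD T hT val grad hV δ hδ
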